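import Mathlib

set_option autoImplicit false

/-!
A positive undecidable numbering of the family of all `m`-c.e. sets, `m ≥ 1`.
-/

namespace Pool.Agent.H651.PU

open Nat.Partrec (Code)

/-! ### Helper lemmas on primitive recursive predicates -/

section Aux
variable {α : Type*} [Primcodable α]

theorem ex_lt {R : ℕ → α → Prop} {f : α → ℕ} (hR : PrimrecRel R) (hf : Primrec f) :
    PrimrecPred fun a => ∃ x < f a, R x a :=
  (hR.exists_mem_list.comp (Primrec.list_range.comp hf) Primrec.id).of_eq (by simp)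

theorem all_lt {R : ℕ → α → Prop} {f : α → ℕ} (hR : PrimrecRel R) (hf : Primrec f) :
    PrimrecPred fun a => ∀ x < f a, R x a :=
  (hR.forall_mem_list.comp (Primrec.list_range.comp hf) Primrec.id).of_eq (by simp)

end Aux

/-! ### A universal numbering of the `m`-c.e. sets -/

/-- stage `s` of the `e`-th c.e. set -/
def W (s e y : ℕ) : Bool := (Code.evaln s (Denumerable.ofNat Code e) y).isSome

theorem W_mono {s t e y : ℕ} (h : s ≤ t) (hs : W s e y = true) : W t e y = true := by
  unfold W at *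
  obtain ⟨z, hz⟩ := Option.isSome_iff_exists.1 hs
  have := Code.evaln_mono h (Option.mem_def.2 hz)
  rw [Option.mem_def.1 this]
  rfl

theorem W_zero (e y : ℕ) : W 0 e y = false := by
  unfold W Code.evaln
  rfl

theorem W_primrec : Primrec fun q : (ℕ × ℕ) × ℕ => W q.1.1 q.1.2 q.2 := by
  have h1 : Primrec fun q : (ℕ × ℕ) × ℕ =>
      Code.evaln q.1.1 (Denumerable.ofNat Code q.1.2) q.2 :=
    Code.primrec_evaln.comp (((Primrec.fst.comp Primrec.fst).pair ((Primrec.ofNat Code).comp
      (Primrec.snd.comp Primrec.fst))).pair Primrec.snd)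
  exact Primrec.option_isSome.comp h1

/-- the number of successive pairs `⟨x, i⟩`, `i < m`, enumerated before stage `s` -/
def cnt (s e x : ℕ) : ℕ → ℕ
  | 0 => 0
  | i + 1 => if cnt s e x i = i ∧ W s e (Nat.pair x i) = true then i + 1 else cnt s e x i

theorem cnt_le (s e x m : ℕ) : cnt s e x m ≤ m := by
  induction m with
  | zero => simp [cnt]
  | succ m ih =>
    rw [cnt]
    split_ifs
    · exact le_rfl
    · exact ih.trans (Nat.le_succ m)

theorem cnt_zero (e x m : ℕ) : cnt 0 e x m = 0 := by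
  induction m with
  | zero => rfl
  | succ m ih => rw [cnt, W_zero]; simpa using ih

theorem cnt_succ_le (s e x m : ℕ) : cnt s e x m ≤ cnt s e x (m + 1) := by
  conv_rhs => rw [cnt]
  split_ifs with h
  · exact (cnt_le s e x m).trans (Nat.le_succ m)
  · exact le_rfl

theorem cnt_mono {s t : ℕ} (h : s ≤ t) (e x m : ℕ) : cnt s e x m ≤ cnt t e x m := by
  induction m with
  | zero => simp [cnt]
  | succ m ih =>
    conv_lhs => rw [cnt]
    split_ifs with h1
    · have h2 : cnt t e x m = m := le_antisymm (cnt_le t e x m) (h1.1.symm.le.trans ih)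
      rw [cnt, if_pos ⟨h2, W_mono h h1.2⟩]
    · exact ih.trans (cnt_succ_le t e x m)

theorem cnt_primrec (m : ℕ) : Primrec fun q : (ℕ × ℕ) × ℕ => cnt q.1.1 q.1.2 q.2 m := by
  induction m with
  | zero => exact Primrec.const 0
  | succ m ih =>
    have h1 : PrimrecPred fun q : (ℕ × ℕ) × ℕ =>
        cnt q.1.1 q.1.2 q.2 m = m ∧ W q.1.1 q.1.2 (Nat.pair q.2 m) = true := by
      refine PrimrecPred.and (Primrec.eq.comp ih (Primrec.const m)) ?_
      refine Primrec.eq.comp (W_primrec.comp (Primrec.fst.pair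
        (Primrec₂.natPair.comp Primrec.snd (Primrec.const m)))) (Primrec.const true)
    refine (Primrec.ite h1 (Primrec.const (m + 1)) ih).of_eq fun q => ?_
    rw [cnt]

/-- stage `s` of the `e`-th `m`-c.e. set -/
def app (m e x s : ℕ) : Bool := decide (cnt s e x m % 2 = 1)

/-- the `e`-th `m`-c.e. set -/
def V (m e : ℕ) : Set ℕ := {x | ∃ s₀, ∀ s, s₀ ≤ s → app m e x s = true}

/-- bounded monotone functions are eventually constant -/
theorem ev_const {c : ℕ → ℕ} {m : ℕ} (hm : Monotone c) (hb : ∀ s, c s ≤ m) :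
    ∃ s₀, ∀ s, s₀ ≤ s → c s = c s₀ := by
  classical
  have hex : ∃ k, ∃ s, c s = m - k := by
    refine ⟨m - c 0, 0, ?_⟩
    have := hb 0
    omega
  obtain ⟨s, hs⟩ := Nat.find_spec hex
  refine ⟨s, fun t ht => ?_⟩
  have h1 : c s ≤ c t := hm ht
  by_contra hne
  have h2 : c s < c t := lt_of_le_of_ne h1 (Ne.symm hne)
  have h3 : m - c t < Nat.find hex := by
    have := hb t
    omega
  exact Nat.find_min hex h3 ⟨t, by have := hb t; omega⟩

/-- number of changes before stage `s` -/
def chg (h : ℕ → Bool) : ℕ → ℕ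
  | 0 => 0
  | s + 1 => if h (s + 1) ≠ h s then chg h s + 1 else chg h s

theorem chg_mono (h : ℕ → Bool) : Monotone (chg h) := by
  refine monotone_nat_of_le_succ fun s => ?_
  rw [chg]
  split_ifs <;> omega

theorem chg_parity (h : ℕ → Bool) (h0 : h 0 = false) (s : ℕ) : h s = true ↔ chg h s % 2 = 1 := by
  induction s with
  | zero => simp [h0, chg]
  | succ s ih =>
    rw [chg]
    by_cases hc : h (s + 1) = h s
    · rw [if_neg (by simpa using hc), hc]
      exact ih
    · rw [if_pos (by simpa using hc)]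
      cases h1 : h s <;> cases h2 : h (s + 1) <;> simp_all <;> omega

/-- from many changes one gets a strictly increasing sequence of change points -/
theorem chg_seq (h : ℕ → Bool) (k : ℕ) : ∀ s, k ≤ chg h s →
    ∃ t : Fin k → ℕ, StrictMono t ∧ (∀ i, t i < s) ∧ ∀ i, h (t i + 1) ≠ h (t i) := by
  induction k with
  | zero =>
    intro s _
    exact ⟨fun i => i.elim0, fun i => i.elim0, fun i => i.elim0, fun i => i.elim0⟩
  | succ k ih =>
    intro s hs
    induction s with
    | zero => simp [chg] at hs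
    | succ s ihs =>
      by_cases hk : k + 1 ≤ chg h s
      · obtain ⟨t, h1, h2, h3⟩ := ihs hk
        exact ⟨t, h1, fun i => (h2 i).trans (Nat.lt_succ_self s), h3⟩
      · have hc : h (s + 1) ≠ h s := by
          intro hcon
          rw [chg, if_neg (by simpa using hcon)] at hs
          exact hk hs
        have hle : k ≤ chg h s := by
          rw [chg, if_pos hc] at hs
          omega
        obtain ⟨t, h1, h2, h3⟩ := ih s hle
        refine ⟨Fin.snoc (α := fun _ => ℕ) t s, ?_, ?_, ?_⟩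
        · intro i j hij
          induction j using Fin.lastCases with
          | last =>
            induction i using Fin.lastCases with
            | last => exact absurd hij (lt_irrefl _)
            | cast i => simpa using h2 i
          | cast j =>
            induction i using Fin.lastCases with
            | last => exact absurd hij (not_lt.2 (Fin.castSucc_lt_last j).le)
            | cast i =>
              simp only [Fin.snoc_castSucc]
              exact h1 (Fin.castSucc_lt_castSucc_iff.1 hij)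
        · intro i
          induction i using Fin.lastCases with
          | last => simp
          | cast i => simpa using (h2 i).trans (Nat.lt_succ_self s)
        · intro i
          induction i using Fin.lastCases with
          | last => simpa using hc
          | cast i => simpa using h3 i

/-- the parity of a monotone counter bounded by `m` changes at most `m` times -/
theorem few_changes {c : ℕ → ℕ} {m : ℕ} (hm : Monotone c) (hb : ∀ s, c s ≤ m)
    (t : Fin (m + 1) → ℕ) (ht : StrictMono t) :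
    ∃ i, decide (c (t i + 1) % 2 = 1) = decide (c (t i) % 2 = 1) := by
  by_contra hcon
  push Not at hcon
  have h1 : ∀ i, c (t i) < c (t i + 1) := by
    intro i
    refine lt_of_le_of_ne (hm (Nat.le_succ _)) fun he => hcon i ?_
    rw [he]
  have h2 : ∀ k (hk : k < m + 1), k + 1 ≤ c (t ⟨k, hk⟩ + 1) := by
    intro k
    induction k with
    | zero => intro hk; have := h1 ⟨0, hk⟩; omega
    | succ k ih =>
      intro hk
      have h3 := ih (by omega)
      have h4 : t ⟨k, by omega⟩ < t ⟨k + 1, hk⟩ := ht (by simp)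
      have h5 : c (t ⟨k, by omega⟩ + 1) ≤ c (t ⟨k + 1, hk⟩) := hm h4
      have := h1 ⟨k + 1, hk⟩
      omega
  have h3 := h2 m (by omega)
  have := hb (t ⟨m, by omega⟩ + 1)
  omega

/-- the property that `g` is an approximation to the `m`-c.e. set `A` -/
def Approx (m : ℕ) (g : ℕ → ℕ → Bool) (A : Set ℕ) : Prop :=
  (∀ x, g x 0 = false) ∧ (∀ x, ∃ s₀ : ℕ, ∀ s, s₀ ≤ s → (g x s = true ↔ x ∈ A)) ∧
    ∀ x (t : Fin (m + 1) → ℕ), StrictMono t → ∃ i, g x (t i + 1) = g x (t i)

/-- sets given by counters are `m`-c.e. -/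
theorem approx_of_counter {m : ℕ} {c : ℕ → ℕ → ℕ} (h0 : ∀ x, c x 0 = 0)
    (hm : ∀ x, Monotone (c x)) (hb : ∀ x s, c x s ≤ m) :
    Approx m (fun x s => decide (c x s % 2 = 1))
      {x | ∃ s₀, ∀ s, s₀ ≤ s → decide (c x s % 2 = 1) = true} := by
  refine ⟨fun x => by simp [h0], fun x => ?_, fun x t ht => few_changes (hm x) (hb x) t ht⟩
  obtain ⟨s₀, hs₀⟩ := ev_const (hm x) (hb x)
  refine ⟨s₀, fun s hs => ⟨fun h => ⟨s, fun r hr => ?_⟩, ?_⟩⟩
  · rw [hs₀ r (hs.trans hr), ← hs₀ s hs]
    exact h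
  · rintro ⟨r, hr⟩
    have h1 := hr (max r s) (le_max_left _ _)
    rwa [hs₀ _ (hs.trans (le_max_right _ _)), ← hs₀ s hs] at h1

theorem V_approx (m e : ℕ) : Approx m (app m e) (V m e) :=
  approx_of_counter (c := fun x s => cnt s e x m) (fun x => cnt_zero e x m)
    (fun x _ _ h => cnt_mono h e x m) (fun x s => cnt_le s e x m)

theorem computable_chg {g : ℕ → ℕ → Bool} (hg : Computable₂ g) :
    Computable₂ fun x s => chg (g x) s := by
  have h1 : Computable₂ fun (p : ℕ × ℕ) (q : ℕ × ℕ) =>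
      (if g p.1 (q.1 + 1) ≠ g p.1 q.1 then q.2 + 1 else q.2 : ℕ) := by
    have a1 : Computable fun z : (ℕ × ℕ) × (ℕ × ℕ) => g z.1.1 (z.2.1 + 1) :=
      hg.comp (Computable.fst.comp Computable.fst)
        (Computable.succ.comp (Computable.fst.comp Computable.snd))
    have a2 : Computable fun z : (ℕ × ℕ) × (ℕ × ℕ) => g z.1.1 z.2.1 :=
      hg.comp (Computable.fst.comp Computable.fst) (Computable.fst.comp Computable.snd)
    have a3 : Computable fun z : (ℕ × ℕ) × (ℕ × ℕ) =>
        decide (g z.1.1 (z.2.1 + 1) = g z.1.1 z.2.1) :=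
      (Primrec.eq (α := Bool)).decide.to_comp.comp a1 a2
    have a4 : Computable fun z : (ℕ × ℕ) × (ℕ × ℕ) => z.2.2 :=
      Computable.snd.comp Computable.snd
    refine (Computable.cond a3 a4 (Computable.succ.comp a4)).of_eq fun z => ?_
    by_cases h : g z.1.1 (z.2.1 + 1) = g z.1.1 z.2.1 <;> simp [h]
  have h2 : Computable fun p : ℕ × ℕ => Nat.rec (motive := fun _ => ℕ) 0
      (fun y IH => if g p.1 (y + 1) ≠ g p.1 y then IH + 1 else IH) p.2 :=
    Computable.nat_rec Computable.snd (Computable.const 0) h1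
  refine h2.of_eq fun p => ?_
  obtain ⟨x, s⟩ := p
  dsimp only
  induction s with
  | zero => rfl
  | succ s ih => rw [chg, ← ih]

/-- the numbering `V m` is universal -/
theorem V_surj {m : ℕ} {A : Set ℕ} {g : ℕ → ℕ → Bool} (hg : Computable₂ g) (hA : Approx m g A) :
    ∃ e, V m e = A := by
  obtain ⟨h0, hlim, hch⟩ := hA
  have hb : ∀ x s, chg (g x) s ≤ m := by
    intro x s
    by_contra hcon
    push Not at hcon
    obtain ⟨t, h1, -, h3⟩ := chg_seq (g x) (m + 1) s hcon
    obtain ⟨i, hi⟩ := hch x t h1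
    exact h3 i hi
  have hc1 : Computable₂ fun (y s : ℕ) => decide (y.unpair.2 < chg (g y.unpair.1) s) := by
    have a1 : Computable fun z : ℕ × ℕ => chg (g z.1.unpair.1) z.2 :=
      (computable_chg hg).comp (Computable.fst.comp (Computable.unpair.comp Computable.fst))
        Computable.snd
    exact Primrec.nat_lt.decide.to_comp.comp
      (Computable.snd.comp (Computable.unpair.comp Computable.fst)) a1
  have hc2 : Partrec fun y : ℕ => Nat.rfind fun s =>
      Part.some (decide (y.unpair.2 < chg (g y.unpair.1) s)) := Partrec.rfind hc1.partrec₂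
  obtain ⟨c, hc⟩ := Code.exists_code.1 (Partrec.nat_iff.1 hc2)
  set e := Encodable.encode c with he
  have hW : ∀ y, (∃ s, W s e y = true) ↔ ∃ s, y.unpair.2 < chg (g y.unpair.1) s := by
    intro y
    have h1 : (∃ s, W s e y = true) ↔ (Code.eval c y).Dom := by
      constructor
      · rintro ⟨s, hs⟩
        unfold W at hs
        rw [he, Denumerable.ofNat_encode] at hs
        obtain ⟨z, hz⟩ := Option.isSome_iff_exists.1 hs
        exact Part.dom_iff_mem.2 ⟨z, Code.evaln_sound (Option.mem_def.2 hz)⟩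
      · intro h
        obtain ⟨z, hz⟩ := Part.dom_iff_mem.1 h
        obtain ⟨s, hs⟩ := Code.evaln_complete.1 hz
        refine ⟨s, ?_⟩
        unfold W
        rw [he, Denumerable.ofNat_encode, Option.mem_def.1 hs]
        rfl
    rw [h1, hc]
    refine Iff.trans (Nat.rfind_dom (p := fun s => (Part.some
      (decide (y.unpair.2 < chg (g y.unpair.1) s)) : Part Bool))) ?_
    constructor
    · rintro ⟨s, hs, _⟩
      exact ⟨s, of_decide_eq_true (Part.mem_some_iff.1 hs).symm⟩
    · rintro ⟨s, hs⟩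
      exact ⟨s, Part.mem_some_iff.2 (decide_eq_true hs).symm, fun _ => trivial⟩
  refine ⟨e, ?_⟩
  ext x
  obtain ⟨s₁, hs₁⟩ := ev_const (chg_mono (g x)) (hb x)
  obtain ⟨s₂, hs₂⟩ := hlim x
  obtain ⟨s₃, hs₃⟩ := ev_const (c := fun s => cnt s e x m) (fun _ _ h => cnt_mono h e x m)
    (fun s => cnt_le s e x m)
  set C := chg (g x) s₁ with hC
  -- value of the counter in the limit
  have hlimW : ∀ i, i < m → ((∃ s, W s e (Nat.pair x i) = true) ↔ i < C) := by
    intro i _
    rw [hW]
    simp only [Nat.unpair_pair]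
    constructor
    · rintro ⟨s, hs⟩
      have h1 := chg_mono (g x) (le_max_left s s₁)
      rw [hs₁ _ (le_max_right s s₁)] at h1
      omega
    · intro h
      exact ⟨s₁, h⟩
  have hcnt : ∀ i, i ≤ m → ∃ r, ∀ s, r ≤ s → cnt s e x i = min i C := by
    intro i
    induction i with
    | zero => intro _; exact ⟨0, fun s _ => by simp [cnt]⟩
    | succ i ih =>
      intro hi
      obtain ⟨r, hr⟩ := ih (by omega)
      by_cases hiC : i < C
      · obtain ⟨r', hr'⟩ := (hlimW i (by omega)).2 hiC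
        refine ⟨max r r', fun s hs => ?_⟩
        have h5 := hr s ((le_max_left _ _).trans hs)
        rw [cnt, if_pos ⟨by rw [h5]; omega, W_mono ((le_max_right _ _).trans hs) hr'⟩]
        omega
      · refine ⟨r, fun s hs => ?_⟩
        have hnW : ¬ W s e (Nat.pair x i) = true := fun h =>
          hiC ((hlimW i (by omega)).1 ⟨s, h⟩)
        rw [cnt, if_neg (fun h => hnW h.2), hr s hs]
        omega
  obtain ⟨r, hr⟩ := hcnt m le_rfl
  have hCm : C ≤ m := hb x s₁
  have key : ∀ s, max (max r s₁) s₂ ≤ s → (app m e x s = true ↔ x ∈ A) := by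
    intro s hs
    rw [← hs₂ s ((le_max_right _ _).trans hs), chg_parity (g x) (h0 x) s,
      hs₁ s ((le_max_right r s₁).trans ((le_max_left _ _).trans hs))]
    unfold app
    rw [hr s ((le_max_left r s₁).trans ((le_max_left _ _).trans hs)), min_eq_right hCm,
      decide_eq_true_iff]
  constructor
  · rintro ⟨q, hq⟩
    exact (key (max q (max (max r s₁) s₂)) (le_max_right _ _)).1 (hq _ (le_max_left _ _))
  · intro hx
    exact ⟨_, fun s hs => (key s hs).2 hx⟩

/-! ### The base set -/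

/-- the base set: everything if `m` is odd, nothing if `m` is even -/
def B (m : ℕ) : Set ℕ := {_x | m % 2 = 1}

/-- `x` is a place where stage `s` of the `e`-th set differs from the base set -/
def dif (m e x s : ℕ) : Prop := cnt s e x m % 2 ≠ m % 2

/-- window `n` shows that the `e`-th set is new and has two differences from the base set -/
def Q (m : ℕ) (e n s : ℕ) : Prop :=
  (∃ a < n, ∃ b < n, a ≠ b ∧ dif m e a s ∧ dif m e b s) ∧
    ∀ i < e, ∃ a < n, cnt s i a m % 2 ≠ cnt s e a m % 2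

theorem Q_mono {m e n n' s : ℕ} (h : n ≤ n') (hQ : Q m e n s) : Q m e n' s := by
  obtain ⟨⟨a, ha, b, hb, h1⟩, h2⟩ := hQ
  refine ⟨⟨a, by omega, b, by omega, h1⟩, fun i hi => ?_⟩
  obtain ⟨a, ha, h3⟩ := h2 i hi
  exact ⟨a, by omega, h3⟩

theorem Q_zero (m e s : ℕ) : ¬ Q m e 0 s := by
  rintro ⟨⟨a, ha, _⟩, _⟩
  omega

/-- `n` is a good witness for `e` -/
def good (m e n : ℕ) : Prop := ∀ s, n ≤ s → Q m e n s

theorem good_mono {m e n n' : ℕ} (h : n ≤ n') (hg : good m e n) : good m e n' :=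
  fun s hs => Q_mono h (hg s (h.trans hs))

/-- the computable part of the requirement on followers -/
def okT (m e n t : ℕ) : Prop := n ≤ t ∧ ¬ Q m e n t ∧ ∀ r < t, n ≤ r → Q m e n r

/-- stage `s` of the halting problem -/
def H (s j : ℕ) : Bool := W s j 0

/-- the follower `⟨k, v⟩` is found to be bad by stage `s` -/
def bad (m u s : ℕ) : Prop :=
  (u.unpair.1 = 0 ∧ (¬ okT m u.unpair.2.unpair.1 u.unpair.2.unpair.2.unpair.1
      u.unpair.2.unpair.2.unpair.2 ∨
    ∃ r < s + 1, u.unpair.2.unpair.2.unpair.1 + 1 ≤ r ∧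
      ¬ Q m u.unpair.2.unpair.1 (u.unpair.2.unpair.2.unpair.1 + 1) r)) ∨
  (u.unpair.1 = 1 ∧ H s u.unpair.2 = true) ∨
  (2 ≤ u.unpair.1 ∧ ¬ (H (u.unpair.1 - 1) u.unpair.2 = true ∧ H (u.unpair.1 - 2) u.unpair.2 = false))

theorem bad_mono {m u s t : ℕ} (h : s ≤ t) (hb : bad m u s) : bad m u t := by
  rcases hb with ⟨h1, h2⟩ | ⟨h1, h2⟩ | h3
  · refine Or.inl ⟨h1, h2.imp id ?_⟩
    rintro ⟨r, hr, h3⟩
    exact ⟨r, by omega, h3⟩
  · exact Or.inr (Or.inl ⟨h1, W_mono h h2⟩)
  · exact Or.inr (Or.inr h3)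

open Classical in
/-- the counter of the numbering -/
noncomputable def ctr (m u x s : ℕ) : ℕ :=
  if s = 0 then 0 else
  if bad m u s then m else
  if u.unpair.1 = 0 then cnt s u.unpair.2.unpair.1 x m else
  if (m % 2 = 1 ↔ x = u.unpair.2) then 0 else 1

theorem ctr_le {m : ℕ} (hm : 1 ≤ m) (u x s : ℕ) : ctr m u x s ≤ m := by
  unfold ctr
  split_ifs
  · exact Nat.zero_le _
  · exact le_rfl
  · exact cnt_le _ _ _ _
  · exact Nat.zero_le _
  · exact hm

theorem ctr_mono {m : ℕ} (hm : 1 ≤ m) (u x : ℕ) : Monotone (ctr m u x) := by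
  intro s t hst
  by_cases hs : s = 0
  · simp [ctr, hs]
  · have ht : t ≠ 0 := by omega
    by_cases hbt : bad m u t
    · have : ctr m u x t = m := by unfold ctr; rw [if_neg ht, if_pos hbt]
      rw [this]
      exact ctr_le hm u x s
    · have hbs : ¬ bad m u s := fun h => hbt (bad_mono hst h)
      unfold ctr
      rw [if_neg hs, if_neg ht, if_neg hbs, if_neg hbt]
      split_ifs
      · exact cnt_mono hst _ _ _
      · exact le_rfl
      · exact le_rfl

/-- the numbering -/
def al (m u : ℕ) : Set ℕ := {x | ∃ s₀, ∀ s, s₀ ≤ s → decide (ctr m u x s % 2 = 1) = true}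

theorem al_bad {m u s : ℕ} (h : bad m u s) : al m u = B m := by
  ext x
  have hv : ∀ t, s + 1 ≤ t → ctr m u x t = m := by
    intro t ht
    unfold ctr
    rw [if_neg (by omega), if_pos (bad_mono (by omega) h)]
  constructor
  · rintro ⟨r, hr⟩
    have := hr (max r (s + 1)) (le_max_left _ _)
    rw [hv _ (le_max_right _ _), decide_eq_true_iff] at this
    exact this
  · intro hx
    refine ⟨s + 1, fun t ht => ?_⟩
    rw [hv t ht, decide_eq_true_iff]
    exact hx

theorem al_zero {m u : ℕ} (h : ∀ s, ¬ bad m u s) (h0 : u.unpair.1 = 0) :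
    al m u = V m u.unpair.2.unpair.1 := by
  ext x
  have hv : ∀ t, 1 ≤ t → ctr m u x t = cnt t u.unpair.2.unpair.1 x m := by
    intro t ht
    unfold ctr
    rw [if_neg (by omega), if_neg (h t), if_pos h0]
  constructor
  · rintro ⟨r, hr⟩
    refine ⟨max r 1, fun s hs => ?_⟩
    have := hr s ((le_max_left _ _).trans hs)
    rwa [hv s ((le_max_right _ _).trans hs)] at this
  · rintro ⟨r, hr⟩
    refine ⟨max r 1, fun s hs => ?_⟩
    rw [hv s ((le_max_right _ _).trans hs)]
    exact hr s ((le_max_left _ _).trans hs)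

theorem al_pos {m u : ℕ} (h : ∀ s, ¬ bad m u s) (h0 : u.unpair.1 ≠ 0) :
    al m u = symmDiff (B m) {u.unpair.2} := by
  ext x
  have hv : ∀ t, 1 ≤ t → (ctr m u x t % 2 = 1 ↔ ¬ (m % 2 = 1 ↔ x = u.unpair.2)) := by
    intro t ht
    unfold ctr
    rw [if_neg (by omega), if_neg (h t), if_neg h0]
    split_ifs with h1
    · simp [h1]
    · simp [h1]
  have hx : x ∈ symmDiff (B m) {u.unpair.2} ↔ ¬ (m % 2 = 1 ↔ x = u.unpair.2) := by
    rw [Set.mem_symmDiff, Set.mem_singleton_iff]
    have : x ∈ B m ↔ m % 2 = 1 := Iff.rfl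
    rw [this]
    tauto
  rw [hx]
  constructor
  · rintro ⟨r, hr⟩
    have := hr (max r 1) (le_max_left _ _)
    rwa [decide_eq_true_iff, hv _ (le_max_right _ _)] at this
  · intro h2
    refine ⟨1, fun s hs => ?_⟩
    rw [decide_eq_true_iff, hv s hs]
    exact h2

/-! ### Sets and windows -/

theorem mem_V_iff (m e x : ℕ) :
    ∃ s₀, ∀ s, s₀ ≤ s → (x ∈ V m e ↔ cnt s e x m % 2 = 1) := by
  obtain ⟨s₀, hs₀⟩ := (V_approx m e).2.1 x
  refine ⟨s₀, fun s hs => ?_⟩
  rw [← hs₀ s hs]
  unfold app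
  rw [decide_eq_true_iff]

theorem mem_V_window (m e n : ℕ) :
    ∃ s₀, ∀ s, s₀ ≤ s → ∀ x < n, (x ∈ V m e ↔ cnt s e x m % 2 = 1) := by
  induction n with
  | zero => exact ⟨0, fun _ _ x hx => absurd hx (Nat.not_lt_zero x)⟩
  | succ n ih =>
    obtain ⟨s₁, h1⟩ := ih
    obtain ⟨s₂, h2⟩ := mem_V_iff m e n
    refine ⟨max s₁ s₂, fun s hs x hx => ?_⟩
    rcases Nat.lt_succ_iff_lt_or_eq.1 hx with h | h
    · exact h1 s ((le_max_left _ _).trans hs) x h
    · rw [h]
      exact h2 s ((le_max_right _ _).trans hs)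

theorem mem_V_windows (m k n : ℕ) :
    ∃ s₀, ∀ s, s₀ ≤ s → ∀ i < k, ∀ x < n, (x ∈ V m i ↔ cnt s i x m % 2 = 1) := by
  induction k with
  | zero => exact ⟨0, fun _ _ i hi => absurd hi (Nat.not_lt_zero i)⟩
  | succ k ih =>
    obtain ⟨s₁, h1⟩ := ih
    obtain ⟨s₂, h2⟩ := mem_V_window m k n
    refine ⟨max s₁ s₂, fun s hs i hi => ?_⟩
    rcases Nat.lt_succ_iff_lt_or_eq.1 hi with h | h
    · exact h1 s ((le_max_left _ _).trans hs) i h
    · rw [h]
      exact h2 s ((le_max_right _ _).trans hs)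

theorem dif_iff {m e x s : ℕ} (h : x ∈ V m e ↔ cnt s e x m % 2 = 1) :
    dif m e x s ↔ ¬ (x ∈ V m e ↔ x ∈ B m) := by
  have h1 : x ∈ B m ↔ m % 2 = 1 := Iff.rfl
  rw [h, h1]
  unfold dif
  omega

/-- new sets with two differences from the base set have good witnesses -/
theorem exists_good {m e a b : ℕ} (hab : a ≠ b) (ha : ¬ (a ∈ V m e ↔ a ∈ B m))
    (hb : ¬ (b ∈ V m e ↔ b ∈ B m)) (hne : ∀ i < e, V m i ≠ V m e) : ∃ n, good m e n := by
  have hex : ∀ k, k ≤ e → ∃ N, ∀ i < k, ∃ x < N, ¬ (x ∈ V m i ↔ x ∈ V m e) := by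
    intro k
    induction k with
    | zero => intro _; exact ⟨0, fun i hi => absurd hi (Nat.not_lt_zero i)⟩
    | succ k ih =>
      intro hk
      obtain ⟨N, hN⟩ := ih (by omega)
      have h1 : ∃ x, ¬ (x ∈ V m k ↔ x ∈ V m e) := by
        by_contra hcon
        push Not at hcon
        exact hne k (by omega) (Set.ext hcon)
      obtain ⟨x, hx⟩ := h1
      refine ⟨max N (x + 1), fun i hi => ?_⟩
      rcases Nat.lt_succ_iff_lt_or_eq.1 hi with h | h
      · obtain ⟨y, hy, hy'⟩ := hN i h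
        exact ⟨y, lt_of_lt_of_le hy (le_max_left _ _), hy'⟩
      · exact ⟨x, lt_of_lt_of_le (Nat.lt_succ_self x) (le_max_right _ _), by rw [h]; exact hx⟩
  obtain ⟨N, hN⟩ := hex e le_rfl
  obtain ⟨s₀, hs₀⟩ := mem_V_windows m (e + 1) (max N (max (a + 1) (b + 1)))
  refine ⟨max s₀ (max N (max (a + 1) (b + 1))), fun s hs => ?_⟩
  have hs1 := hs₀ s ((le_max_left _ _).trans hs)
  refine Q_mono (n := max N (max (a + 1) (b + 1))) (le_max_right _ _) ⟨⟨a, ?_, b, ?_, hab, ?_, ?_⟩, ?_⟩
  · omega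
  · omega
  · exact (dif_iff (hs1 e (by omega) a (by omega))).2 ha
  · exact (dif_iff (hs1 e (by omega) b (by omega))).2 hb
  · intro i hi
    obtain ⟨x, hx, hx'⟩ := hN i hi
    refine ⟨x, by omega, fun hcon => hx' ?_⟩
    rw [hs1 i (by omega) x (by omega), hs1 e (by omega) x (by omega), hcon]

theorem good_spec {m e n : ℕ} (hg : good m e n) :
    (∃ a b, a ≠ b ∧ ¬ (a ∈ V m e ↔ a ∈ B m) ∧ ¬ (b ∈ V m e ↔ b ∈ B m)) ∧
      ∀ i < e, V m i ≠ V m e := by
  obtain ⟨s₀, hs₀⟩ := mem_V_windows m (e + 1) n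
  obtain ⟨⟨a, ha, b, hb, hab, h1, h2⟩, h3⟩ := hg (max s₀ n) (le_max_right _ _)
  have hs1 := hs₀ (max s₀ n) (le_max_left _ _)
  refine ⟨⟨a, b, hab, (dif_iff (hs1 e (by omega) a ha)).1 h1,
    (dif_iff (hs1 e (by omega) b hb)).1 h2⟩, fun i hi hcon => ?_⟩
  obtain ⟨x, hx, hx'⟩ := h3 i hi
  have h4 := hs1 i (by omega) x hx
  have h5 := hs1 e (by omega) x hx
  rw [hcon, h5] at h4
  apply hx'
  have := Nat.mod_two_eq_zero_or_one (cnt (max s₀ n) i x m)
  have := Nat.mod_two_eq_zero_or_one (cnt (max s₀ n) e x m)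
  omega

/-! ### The kernel -/

/-- `u` is good -/
def live (m u : ℕ) : Prop := ∀ s, ¬ bad m u s

theorem live_zero {m u : ℕ} (h : live m u) (h0 : u.unpair.1 = 0) :
    okT m u.unpair.2.unpair.1 u.unpair.2.unpair.2.unpair.1 u.unpair.2.unpair.2.unpair.2 ∧
      good m u.unpair.2.unpair.1 (u.unpair.2.unpair.2.unpair.1 + 1) := by
  constructor
  · by_contra hcon
    exact h 0 (Or.inl ⟨h0, Or.inl hcon⟩)
  · intro s hs
    by_contra hcon
    exact h s (Or.inl ⟨h0, Or.inr ⟨s, Nat.lt_succ_self s, hs, hcon⟩⟩)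

theorem B_ne_symm (m j : ℕ) : symmDiff (B m) {j} ≠ B m := by
  intro h
  have h1 : j ∈ symmDiff (B m) {j} ↔ j ∈ B m := by rw [h]
  rw [Set.mem_symmDiff, Set.mem_singleton_iff] at h1
  tauto

theorem symm_inj {m i j : ℕ} (h : symmDiff (B m) {i} = symmDiff (B m) {j}) : i = j := by
  have h1 : i ∈ symmDiff (B m) {i} ↔ i ∈ symmDiff (B m) {j} := by rw [h]
  rw [Set.mem_symmDiff, Set.mem_singleton_iff, Set.mem_symmDiff, Set.mem_singleton_iff] at h1
  tauto

theorem live_ne {m u : ℕ} (h : live m u) : al m u ≠ B m := by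
  by_cases h0 : u.unpair.1 = 0
  · rw [al_zero h h0]
    obtain ⟨⟨a, b, -, ha, -⟩, -⟩ := good_spec (live_zero h h0).2
    intro hcon
    rw [hcon] at ha
    exact ha Iff.rfl
  · rw [al_pos h h0]
    exact B_ne_symm m _

theorem live_zero_ne {m u v : ℕ} (h : live m u) (h0 : u.unpair.1 = 0) (h' : live m v)
    (h0' : v.unpair.1 ≠ 0) : al m u ≠ al m v := by
  rw [al_zero h h0, al_pos h' h0']
  obtain ⟨⟨a, b, hab, ha, hb⟩, -⟩ := good_spec (live_zero h h0).2
  intro hcon
  rw [hcon] at ha hb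
  rw [Set.mem_symmDiff, Set.mem_singleton_iff] at ha hb
  have h1 : a = v.unpair.2 := by tauto
  have h2 : b = v.unpair.2 := by tauto
  exact hab (h1.trans h2.symm)

theorem okT_unique {m e n n' t t' : ℕ} (h1 : okT m e n t) (h2 : good m e (n + 1))
    (h3 : okT m e n' t') (h4 : good m e (n' + 1)) : n = n' ∧ t = t' := by
  have key : ∀ {n n' t : ℕ}, okT m e n' t → good m e (n + 1) → n' ≤ n := by
    intro n n' t h5 h6
    by_contra hcon
    push Not at hcon
    exact h5.2.1 (good_mono hcon h6 t h5.1)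
  have hn : n = n' := le_antisymm (key h1 h4) (key h3 h2)
  refine ⟨hn, ?_⟩
  rw [← hn] at h3
  rcases lt_trichotomy t t' with h | h | h
  · exact absurd (h3.2.2 t h h1.1) h1.2.1
  · exact h
  · exact absurd (h1.2.2 t' h h3.1) h3.2.1

theorem unpair_ext {u v : ℕ} (h1 : u.unpair.1 = v.unpair.1) (h2 : u.unpair.2 = v.unpair.2) :
    u = v := by
  rw [← Nat.pair_unpair u, ← Nat.pair_unpair v, h1, h2]

theorem live_inj {m u v : ℕ} (hu : live m u) (hv : live m v) (h : al m u = al m v) : u = v := by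
  by_cases h0 : u.unpair.1 = 0
  · by_cases h0' : v.unpair.1 = 0
    · obtain ⟨a1, a2⟩ := live_zero hu h0
      obtain ⟨b1, b2⟩ := live_zero hv h0'
      rw [al_zero hu h0, al_zero hv h0'] at h
      have he : u.unpair.2.unpair.1 = v.unpair.2.unpair.1 := by
        rcases lt_trichotomy u.unpair.2.unpair.1 v.unpair.2.unpair.1 with hlt | heq | hlt
        · exact absurd h ((good_spec b2).2 _ hlt)
        · exact heq
        · exact absurd h.symm ((good_spec a2).2 _ hlt)
      rw [← he] at b1 b2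
      obtain ⟨c1, c2⟩ := okT_unique a1 a2 b1 b2
      exact unpair_ext (h0.trans h0'.symm) (unpair_ext he (unpair_ext c1 c2))
    · exact absurd h (live_zero_ne hu h0 hv h0')
  · by_cases h0' : v.unpair.1 = 0
    · exact absurd h.symm (live_zero_ne hv h0' hu h0)
    · rw [al_pos hu h0, al_pos hv h0'] at h
      have hj := symm_inj h
      refine unpair_ext ?_ hj
      -- the two codes of the same set
      have key : ∀ {u v : ℕ}, live m u → live m v → u.unpair.1 ≠ 0 → v.unpair.1 ≠ 0 →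
          u.unpair.2 = v.unpair.2 → ¬ u.unpair.1 < v.unpair.1 := by
        intro u v hu hv h0 h0' hj hlt
        have hv2 : H (v.unpair.1 - 1) v.unpair.2 = true ∧ H (v.unpair.1 - 2) v.unpair.2 = false := by
          by_contra hcon
          exact hv 0 (Or.inr (Or.inr ⟨by omega, hcon⟩))
        by_cases h1 : u.unpair.1 = 1
        · exact hu (v.unpair.1 - 1) (Or.inr (Or.inl ⟨h1, by rw [hj]; exact hv2.1⟩))
        · have hu2 : H (u.unpair.1 - 1) u.unpair.2 = true ∧
              H (u.unpair.1 - 2) u.unpair.2 = false := by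
            by_contra hcon
            exact hu 0 (Or.inr (Or.inr ⟨by omega, hcon⟩))
          have h3 : H (v.unpair.1 - 2) v.unpair.2 = true := by
            rw [← hj]
            exact W_mono (by omega) hu2.1
          rw [hv2.2] at h3
          exact absurd h3 (by decide)
      have k1 := key hu hv h0 h0' hj
      have k2 := key hv hu h0' h0 hj.symm
      omega

theorem al_eq_iff {m u v : ℕ} :
    al m u = al m v ↔ u = v ∨ ((∃ s, bad m u s) ∧ ∃ s, bad m v s) := by
  constructor
  · intro h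
    by_cases hu : ∃ s, bad m u s
    · by_cases hv : ∃ s, bad m v s
      · exact Or.inr ⟨hu, hv⟩
      · push Not at hv
        obtain ⟨s, hs⟩ := hu
        rw [al_bad hs] at h
        exact absurd h.symm (live_ne hv)
    · push Not at hu
      by_cases hv : ∃ s, bad m v s
      · obtain ⟨s, hs⟩ := hv
        rw [al_bad hs] at h
        exact absurd h (live_ne hu)
      · push Not at hv
        exact Or.inl (live_inj hu hv h)
  · rintro (h | ⟨⟨s, hs⟩, ⟨t, ht⟩⟩)
    · rw [h]
    · rw [al_bad hs, al_bad ht]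

theorem not_bad_iff_zero {m v : ℕ} : (∀ s, ¬ bad m (Nat.pair 0 v) s) ↔
    okT m v.unpair.1 v.unpair.2.unpair.1 v.unpair.2.unpair.2 ∧
      good m v.unpair.1 (v.unpair.2.unpair.1 + 1) := by
  constructor
  · intro h
    have := live_zero (m := m) (u := Nat.pair 0 v) h (by simp)
    simpa using this
  · rintro ⟨h1, h2⟩ s hb
    rcases hb with ⟨-, hb⟩ | ⟨h3, -⟩ | ⟨h3, -⟩
    · simp only [Nat.unpair_pair] at hb
      rcases hb with hb | ⟨r, -, h3, h4⟩
      · exact hb h1
      · exact h4 (h2 r h3)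
    · simp at h3
    · simp at h3

/-- the numbering is onto the family of all `m`-c.e. sets -/
theorem al_surj {m : ℕ} {A : Set ℕ} {g : ℕ → ℕ → Bool} (hg : Computable₂ g) (hA : Approx m g A) :
    ∃ u, al m u = A := by
  classical
  have hex := V_surj hg hA
  by_cases h2 : ∃ a b, a ≠ b ∧ ¬ (a ∈ A ↔ a ∈ B m) ∧ ¬ (b ∈ A ↔ b ∈ B m)
  · obtain ⟨a, b, hab, ha, hb⟩ := h2
    have he := Nat.find_spec hex
    have hmin : ∀ i < Nat.find hex, V m i ≠ V m (Nat.find hex) := by
      intro i hi hcon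
      exact Nat.find_min hex hi (hcon.trans he)
    rw [← he] at ha hb
    have hgood := exists_good hab ha hb hmin
    have hn := Nat.find_spec hgood
    have hn0 : Nat.find hgood ≠ 0 := by
      intro h0
      rw [h0] at hn
      exact Q_zero m _ 0 (hn 0 le_rfl)
    obtain ⟨n, hnn⟩ := Nat.exists_eq_succ_of_ne_zero hn0
    have hnot : ¬ good m (Nat.find hex) n := Nat.find_min hgood (by omega)
    have hex2 : ∃ t, n ≤ t ∧ ¬ Q m (Nat.find hex) n t := by
      unfold good at hnot
      push Not at hnot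
      exact hnot
    have ht := Nat.find_spec hex2
    have hlive : ∀ s, ¬ bad m (Nat.pair 0 (Nat.pair (Nat.find hex) (Nat.pair n (Nat.find hex2)))) s := by
      rw [not_bad_iff_zero]
      simp only [Nat.unpair_pair]
      refine ⟨⟨ht.1, ht.2, fun r hr hnr => ?_⟩, ?_⟩
      · by_contra hcon
        exact Nat.find_min hex2 hr ⟨hnr, hcon⟩
      · rw [hnn] at hn
        exact hn
    refine ⟨_, (al_zero hlive (by simp)).trans ?_⟩
    simp only [Nat.unpair_pair]
    exact he
  · by_cases h1 : ∃ a, ¬ (a ∈ A ↔ a ∈ B m)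
    · obtain ⟨a, ha⟩ := h1
      have hAB : symmDiff (B m) {a} = A := by
        ext x
        rw [Set.mem_symmDiff, Set.mem_singleton_iff]
        by_cases hxa : x = a
        · subst hxa
          tauto
        · have : (x ∈ A ↔ x ∈ B m) := by
            by_contra hcon
            exact h2 ⟨x, a, hxa, hcon, ha⟩
          tauto
      by_cases hK : ∃ s, H s a = true
      · have hs := Nat.find_spec hK
        have h0 : Nat.find hK ≠ 0 := by
          intro h0
          rw [h0] at hs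
          unfold H at hs
          rw [W_zero] at hs
          exact absurd hs (by decide)
        have hlive : ∀ s, ¬ bad m (Nat.pair (Nat.find hK + 1) a) s := by
          rintro s (⟨h3, -⟩ | ⟨h3, -⟩ | ⟨-, h3⟩)
          · simp at h3
          · simp only [Nat.unpair_pair] at h3
            omega
          · simp only [Nat.unpair_pair] at h3
            apply h3
            refine ⟨by simpa using hs, ?_⟩
            have := Nat.find_min hK (m := Nat.find hK + 1 - 2) (by omega)
            simpa using this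
        refine ⟨_, (al_pos hlive (by simp)).trans ?_⟩
        simp only [Nat.unpair_pair]
        exact hAB
      · have hlive : ∀ s, ¬ bad m (Nat.pair 1 a) s := by
          rintro s (⟨h3, -⟩ | ⟨-, h3⟩ | ⟨h3, -⟩)
          · simp at h3
          · simp only [Nat.unpair_pair] at h3
            exact hK ⟨s, h3⟩
          · simp at h3
        refine ⟨_, (al_pos hlive (by simp)).trans ?_⟩
        simp only [Nat.unpair_pair]
        exact hAB
    · refine ⟨Nat.pair 0 (Nat.pair 0 (Nat.pair 1 0)), ?_⟩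
      have hb : bad m (Nat.pair 0 (Nat.pair 0 (Nat.pair 1 0))) 0 := by
        refine Or.inl ⟨by simp, Or.inl fun h => ?_⟩
        have := h.1
        simp only [Nat.unpair_pair] at this
        omega
      rw [al_bad hb]
      push Not at h1
      ext x
      exact (h1 x).symm

/-! ### Computability -/

theorem parity_primrec (m : ℕ) : Primrec fun q : (ℕ × ℕ) × ℕ => cnt q.1.1 q.1.2 q.2 m % 2 :=
  Primrec.nat_mod.comp (cnt_primrec m) (Primrec.const 2)

/-- `Q` with arguments `((e, n), s)` -/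
theorem Q_primrec (m : ℕ) : PrimrecPred fun q : (ℕ × ℕ) × ℕ => Q m q.1.1 q.1.2 q.2 := by
  -- the argument is `q = ((e, n), s)`
  have hd : PrimrecPred fun r : ((ℕ × ℕ) × ℕ) × ℕ => dif m r.1.1.1 r.2 r.1.2 := by
    refine PrimrecPred.not (Primrec.eq.comp (?_ : Primrec fun r : ((ℕ × ℕ) × ℕ) × ℕ =>
      cnt r.1.2 r.1.1.1 r.2 m % 2) (Primrec.const (m % 2)))
    exact (parity_primrec m).comp (((Primrec.snd.comp Primrec.fst).pair
      (Primrec.fst.comp (Primrec.fst.comp Primrec.fst))).pair Primrec.snd)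
  have h1 : PrimrecPred fun q : (ℕ × ℕ) × ℕ =>
      ∃ a < q.1.2, ∃ b < q.1.2, a ≠ b ∧ dif m q.1.1 a q.2 ∧ dif m q.1.1 b q.2 := by
    refine ex_lt (R := fun a q => ∃ b < q.1.2, a ≠ b ∧ dif m q.1.1 a q.2 ∧ dif m q.1.1 b q.2)
      ?_ (Primrec.snd.comp Primrec.fst)
    -- arguments `(a, q)`
    have h2 : PrimrecPred fun z : ℕ × ((ℕ × ℕ) × ℕ) =>
        ∃ b < z.2.1.2, z.1 ≠ b ∧ dif m z.2.1.1 z.1 z.2.2 ∧ dif m z.2.1.1 b z.2.2 := by
      refine ex_lt (R := fun b (z : ℕ × ((ℕ × ℕ) × ℕ)) =>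
        z.1 ≠ b ∧ dif m z.2.1.1 z.1 z.2.2 ∧ dif m z.2.1.1 b z.2.2) ?_
        (Primrec.snd.comp (Primrec.fst.comp Primrec.snd))
      have h3 : PrimrecPred fun w : ℕ × (ℕ × ((ℕ × ℕ) × ℕ)) =>
          w.2.1 ≠ w.1 ∧ dif m w.2.2.1.1 w.2.1 w.2.2.2 ∧ dif m w.2.2.1.1 w.1 w.2.2.2 := by
        refine PrimrecPred.and (PrimrecPred.not (Primrec.eq.comp
          (Primrec.fst.comp Primrec.snd) Primrec.fst)) (PrimrecPred.and ?_ ?_)
        · exact hd.comp ((Primrec.snd.comp Primrec.snd).pair (Primrec.fst.comp Primrec.snd))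
        · exact hd.comp ((Primrec.snd.comp Primrec.snd).pair Primrec.fst)
      exact h3
    exact h2
  have h4 : PrimrecPred fun q : (ℕ × ℕ) × ℕ =>
      ∀ i < q.1.1, ∃ a < q.1.2, cnt q.2 i a m % 2 ≠ cnt q.2 q.1.1 a m % 2 := by
    refine all_lt (R := fun i (q : (ℕ × ℕ) × ℕ) =>
      ∃ a < q.1.2, cnt q.2 i a m % 2 ≠ cnt q.2 q.1.1 a m % 2) ?_ (Primrec.fst.comp Primrec.fst)
    have h5 : PrimrecPred fun z : ℕ × ((ℕ × ℕ) × ℕ) =>
        ∃ a < z.2.1.2, cnt z.2.2 z.1 a m % 2 ≠ cnt z.2.2 z.2.1.1 a m % 2 := by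
      refine ex_lt (R := fun a (z : ℕ × ((ℕ × ℕ) × ℕ)) =>
        cnt z.2.2 z.1 a m % 2 ≠ cnt z.2.2 z.2.1.1 a m % 2) ?_
        (Primrec.snd.comp (Primrec.fst.comp Primrec.snd))
      have h6 : PrimrecPred fun w : ℕ × (ℕ × ((ℕ × ℕ) × ℕ)) =>
          cnt w.2.2.2 w.2.1 w.1 m % 2 ≠ cnt w.2.2.2 w.2.2.1.1 w.1 m % 2 := by
        refine PrimrecPred.not (Primrec.eq.comp ?_ ?_)
        · exact (parity_primrec m).comp (((Primrec.snd.comp (Primrec.snd.comp Primrec.snd)).pair
            (Primrec.fst.comp Primrec.snd)).pair Primrec.fst)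
        · exact (parity_primrec m).comp (((Primrec.snd.comp (Primrec.snd.comp Primrec.snd)).pair
            (Primrec.fst.comp (Primrec.fst.comp (Primrec.snd.comp Primrec.snd)))).pair Primrec.fst)
      exact h6
    exact h5
  exact h1.and h4

theorem bad_primrec (m : ℕ) : PrimrecPred fun q : ℕ × ℕ => bad m q.1 q.2 := by
  have u : Primrec fun q : ℕ × ℕ => q.1.unpair := Primrec.unpair.comp Primrec.fst
  have k : Primrec fun q : ℕ × ℕ => q.1.unpair.1 := Primrec.fst.comp u
  have v : Primrec fun q : ℕ × ℕ => q.1.unpair.2 := Primrec.snd.comp u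
  have e : Primrec fun q : ℕ × ℕ => q.1.unpair.2.unpair.1 :=
    Primrec.fst.comp (Primrec.unpair.comp v)
  have w : Primrec fun q : ℕ × ℕ => q.1.unpair.2.unpair.2 :=
    Primrec.snd.comp (Primrec.unpair.comp v)
  have n : Primrec fun q : ℕ × ℕ => q.1.unpair.2.unpair.2.unpair.1 :=
    Primrec.fst.comp (Primrec.unpair.comp w)
  have t : Primrec fun q : ℕ × ℕ => q.1.unpair.2.unpair.2.unpair.2 :=
    Primrec.snd.comp (Primrec.unpair.comp w)
  have hok : PrimrecPred fun q : ℕ × ℕ => okT m q.1.unpair.2.unpair.1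
      q.1.unpair.2.unpair.2.unpair.1 q.1.unpair.2.unpair.2.unpair.2 := by
    refine PrimrecPred.and (Primrec.nat_le.comp n t) (PrimrecPred.and
      (PrimrecPred.not ((Q_primrec m).comp ((e.pair n).pair t))) ?_)
    refine all_lt (R := fun r (q : ℕ × ℕ) => q.1.unpair.2.unpair.2.unpair.1 ≤ r →
      Q m q.1.unpair.2.unpair.1 q.1.unpair.2.unpair.2.unpair.1 r) ?_ t
    have h1 : PrimrecPred fun z : ℕ × (ℕ × ℕ) => ¬ z.2.1.unpair.2.unpair.2.unpair.1 ≤ z.1 ∨
        Q m z.2.1.unpair.2.unpair.1 z.2.1.unpair.2.unpair.2.unpair.1 z.1 := by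
      refine PrimrecPred.or (PrimrecPred.not (Primrec.nat_le.comp (n.comp Primrec.snd)
        Primrec.fst)) ((Q_primrec m).comp (((e.comp Primrec.snd).pair (n.comp Primrec.snd)).pair
          Primrec.fst))
    exact h1.of_eq fun z => by tauto
  have hH : ∀ {f g : ℕ × ℕ → ℕ}, Primrec f → Primrec g →
      Primrec fun q => H (f q) (g q) := by
    intro f g hf hg
    exact W_primrec.comp ((hf.pair hg).pair (Primrec.const 0))
  have h2 : PrimrecPred fun q : ℕ × ℕ => ∃ r < q.2 + 1,
      q.1.unpair.2.unpair.2.unpair.1 + 1 ≤ r ∧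
      ¬ Q m q.1.unpair.2.unpair.1 (q.1.unpair.2.unpair.2.unpair.1 + 1) r := by
    refine ex_lt (R := fun r (q : ℕ × ℕ) => q.1.unpair.2.unpair.2.unpair.1 + 1 ≤ r ∧
      ¬ Q m q.1.unpair.2.unpair.1 (q.1.unpair.2.unpair.2.unpair.1 + 1) r) ?_
      (Primrec.succ.comp Primrec.snd)
    have h1 : PrimrecPred fun z : ℕ × (ℕ × ℕ) => z.2.1.unpair.2.unpair.2.unpair.1 + 1 ≤ z.1 ∧
        ¬ Q m z.2.1.unpair.2.unpair.1 (z.2.1.unpair.2.unpair.2.unpair.1 + 1) z.1 := by
      refine PrimrecPred.and (Primrec.nat_le.comp (Primrec.succ.comp (n.comp Primrec.snd))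
        Primrec.fst) (PrimrecPred.not ((Q_primrec m).comp (((e.comp Primrec.snd).pair
          (Primrec.succ.comp (n.comp Primrec.snd))).pair Primrec.fst)))
    exact h1
  refine PrimrecPred.or (PrimrecPred.and (Primrec.eq.comp k (Primrec.const 0))
    (PrimrecPred.or (PrimrecPred.not hok) h2)) (PrimrecPred.or (PrimrecPred.and
      (Primrec.eq.comp k (Primrec.const 1)) (Primrec.eq.comp (hH Primrec.snd v)
        (Primrec.const true))) (PrimrecPred.and (Primrec.nat_le.comp (Primrec.const 2) k)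
      (PrimrecPred.not (PrimrecPred.and (Primrec.eq.comp (hH (Primrec.nat_sub.comp k
        (Primrec.const 1)) v) (Primrec.const true)) (Primrec.eq.comp (hH (Primrec.nat_sub.comp k
        (Primrec.const 2)) v) (Primrec.const false))))))

theorem ctr_primrec (m : ℕ) : Primrec fun q : (ℕ × ℕ) × ℕ => ctr m q.1.1 q.1.2 q.2 := by
  -- arguments `((u, x), s)`
  have hu : Primrec fun q : (ℕ × ℕ) × ℕ => q.1.1 := Primrec.fst.comp Primrec.fst
  have hx : Primrec fun q : (ℕ × ℕ) × ℕ => q.1.2 := Primrec.snd.comp Primrec.fst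
  have k : Primrec fun q : (ℕ × ℕ) × ℕ => q.1.1.unpair.1 :=
    Primrec.fst.comp (Primrec.unpair.comp hu)
  have v : Primrec fun q : (ℕ × ℕ) × ℕ => q.1.1.unpair.2 :=
    Primrec.snd.comp (Primrec.unpair.comp hu)
  have e : Primrec fun q : (ℕ × ℕ) × ℕ => q.1.1.unpair.2.unpair.1 :=
    Primrec.fst.comp (Primrec.unpair.comp v)
  have h3 : PrimrecPred fun q : (ℕ × ℕ) × ℕ => (m % 2 = 1 ↔ q.1.2 = q.1.1.unpair.2) := by
    by_cases h : m % 2 = 1
    · exact (Primrec.eq.comp hx v).of_eq fun q => by tauto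
    · exact (PrimrecPred.not (Primrec.eq.comp hx v)).of_eq fun q => by tauto
  classical
  unfold ctr
  refine Primrec.ite (Primrec.eq.comp Primrec.snd (Primrec.const 0)) (Primrec.const 0) ?_
  refine Primrec.ite ((bad_primrec m).comp (hu.pair Primrec.snd)) (Primrec.const m) ?_
  refine Primrec.ite (Primrec.eq.comp k (Primrec.const 0)) ?_ ?_
  · exact (cnt_primrec m).comp ((Primrec.snd.pair e).pair hx)
  · exact Primrec.ite h3 (Primrec.const 0) (Primrec.const 1)

theorem re_of_ex {R : ℕ × ℕ → ℕ → Prop} (h : PrimrecPred fun q : (ℕ × ℕ) × ℕ => R q.1 q.2) :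
    REPred fun p : ℕ × ℕ => ∃ s, R p s := by
  classical
  have h1 : Computable₂ fun (p : ℕ × ℕ) (s : ℕ) => decide (R p s) := h.decide.to_comp
  have h2 : Partrec fun p : ℕ × ℕ => Nat.rfind fun s => Part.some (decide (R p s)) :=
    Partrec.rfind h1.partrec₂
  refine h2.dom_re.of_eq fun p => ?_
  refine Iff.trans (Nat.rfind_dom (p := fun s => (Part.some (decide (R p s)) : Part Bool))) ?_
  constructor
  · rintro ⟨s, hs, _⟩
    exact ⟨s, of_decide_eq_true (Part.mem_some_iff.1 hs).symm⟩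
  · rintro ⟨s, hs⟩
    exact ⟨s, Part.mem_some_iff.2 (decide_eq_true hs).symm, fun _ => trivial⟩

theorem al_positive (m : ℕ) : REPred fun p : ℕ × ℕ => al m p.1 = al m p.2 := by
  have h : PrimrecPred fun q : (ℕ × ℕ) × ℕ =>
      q.1.1 = q.1.2 ∨ (bad m q.1.1 q.2 ∧ bad m q.1.2 q.2) := by
    refine PrimrecPred.or (Primrec.eq.comp (Primrec.fst.comp Primrec.fst)
      (Primrec.snd.comp Primrec.fst)) (PrimrecPred.and ?_ ?_)
    · exact (bad_primrec m).comp ((Primrec.fst.comp Primrec.fst).pair Primrec.snd)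
    · exact (bad_primrec m).comp ((Primrec.snd.comp Primrec.fst).pair Primrec.snd)
  refine (re_of_ex (R := fun p s => p.1 = p.2 ∨ (bad m p.1 s ∧ bad m p.2 s)) h).of_eq fun p => ?_
  rw [al_eq_iff]
  constructor
  · rintro ⟨s, h1 | ⟨h1, h2⟩⟩
    · exact Or.inl h1
    · exact Or.inr ⟨⟨s, h1⟩, ⟨s, h2⟩⟩
  · rintro (h1 | ⟨⟨s, h1⟩, ⟨t, h2⟩⟩)
    · exact ⟨0, Or.inl h1⟩
    · exact ⟨max s t, Or.inr ⟨bad_mono (le_max_left _ _) h1, bad_mono (le_max_right _ _) h2⟩⟩

theorem al_not_decidable (m : ℕ) : ¬ ComputablePred fun p : ℕ × ℕ => al m p.1 = al m p.2 := by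
  intro hcomp
  apply ComputablePred.halting_problem 0
  obtain ⟨f, hf, hf'⟩ := ComputablePred.computable_iff.1 hcomp
  refine ComputablePred.computable_iff.2
    ⟨fun c => f (Nat.pair 1 (Encodable.encode c), Nat.pair 0 (Nat.pair 0 (Nat.pair 1 0))), ?_, ?_⟩
  · refine hf.comp (Computable.pair ?_ (Computable.const _))
    exact Primrec₂.natPair.to_comp.comp (Computable.const 1) Computable.encode
  · funext c
    have h1 := congrFun hf' (Nat.pair 1 (Encodable.encode c), Nat.pair 0 (Nat.pair 0 (Nat.pair 1 0)))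
    simp only at h1
    rw [← h1]
    apply propext
    rw [al_eq_iff]
    have hb : bad m (Nat.pair 0 (Nat.pair 0 (Nat.pair 1 0))) 0 := by
      refine Or.inl ⟨by simp, Or.inl fun h => ?_⟩
      have := h.1
      simp only [Nat.unpair_pair] at this
      omega
    have hne : Nat.pair 1 (Encodable.encode c) ≠ Nat.pair 0 (Nat.pair 0 (Nat.pair 1 0)) := by
      intro h
      have := congrArg (fun z => (Nat.unpair z).1) h
      simp at this
    have hH : (∃ s, bad m (Nat.pair 1 (Encodable.encode c)) s) ↔ (Code.eval c 0).Dom := by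
      constructor
      · rintro ⟨s, ⟨h3, -⟩ | ⟨-, h3⟩ | ⟨h3, -⟩⟩
        · simp at h3
        · simp only [Nat.unpair_pair] at h3
          unfold H W at h3
          rw [Denumerable.ofNat_encode] at h3
          obtain ⟨z, hz⟩ := Option.isSome_iff_exists.1 h3
          exact Part.dom_iff_mem.2 ⟨z, Code.evaln_sound (Option.mem_def.2 hz)⟩
        · simp at h3
      · intro h
        obtain ⟨z, hz⟩ := Part.dom_iff_mem.1 h
        obtain ⟨s, hs⟩ := Code.evaln_complete.1 hz
        refine ⟨s, Or.inr (Or.inl ⟨by simp, ?_⟩)⟩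
        simp only [Nat.unpair_pair]
        unfold H W
        rw [Denumerable.ofNat_encode, Option.mem_def.1 hs]
        rfl
    rw [← hH]
    constructor
    · intro h
      exact Or.inr ⟨h, 0, hb⟩
    · rintro (h | ⟨h, -⟩)
      · exact absurd h hne
      · exact h

theorem al_approx {m : ℕ} (hm : 1 ≤ m) (u : ℕ) :
    Approx m (fun x s => decide (ctr m u x s % 2 = 1)) (al m u) :=
  approx_of_counter (fun x => by simp [ctr]) (fun x => ctr_mono hm u x) (fun x s => ctr_le hm u x s)

/-- the main theorem -/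
theorem main (m : ℕ) (hm : 1 ≤ m) : ∃ α : ℕ → Set ℕ,
    (∀ A : Set ℕ, A ∈ Set.range α ↔ ∃ g : ℕ → ℕ → Bool, Computable₂ g ∧ Approx m g A) ∧
    (∃ g : ℕ → ℕ → Bool, Computable₂ g ∧ Approx m g {x | x.unpair.2 ∈ α x.unpair.1}) ∧
    (REPred fun p : ℕ × ℕ => α p.1 = α p.2) ∧
    ¬ ComputablePred fun p : ℕ × ℕ => α p.1 = α p.2 := by
  refine ⟨al m, ?_, ?_, al_positive m, al_not_decidable m⟩
  · intro A
    constructor
    · rintro ⟨u, rfl⟩
      refine ⟨_, ?_, al_approx hm u⟩
      have h1 : Primrec fun p : ℕ × ℕ => ctr m u p.1 p.2 :=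
        (ctr_primrec m).comp (((Primrec.const u).pair Primrec.fst).pair Primrec.snd)
      exact (PrimrecPred.decide (Primrec.eq.comp (Primrec.nat_mod.comp h1 (Primrec.const 2))
        (Primrec.const 1))).to_comp
    · rintro ⟨g, hg, hA⟩
      exact al_surj hg hA
  · refine ⟨fun z s => decide (ctr m z.unpair.1 z.unpair.2 s % 2 = 1), ?_, ?_, ?_, ?_⟩
    · have h1 : Primrec fun p : ℕ × ℕ => ctr m p.1.unpair.1 p.1.unpair.2 p.2 :=
        (ctr_primrec m).comp ((Primrec.unpair.comp Primrec.fst).pair Primrec.snd)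
      exact (PrimrecPred.decide (Primrec.eq.comp (Primrec.nat_mod.comp h1 (Primrec.const 2))
        (Primrec.const 1))).to_comp
    · intro z
      exact (al_approx hm z.unpair.1).1 z.unpair.2
    · intro z
      exact (al_approx hm z.unpair.1).2.1 z.unpair.2
    · intro z t ht
      exact (al_approx hm z.unpair.1).2.2 z.unpair.2 t ht

end Pool.Agent.H651.PU
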